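import Pool.Agent.H10.EDP.Defs
import Pool.Agent.H50.ED.Main

/-!
# The plain form of the facts implies the form used in the proof
-/

namespace Pool.Agent.H10.EDP

open scoped BigOperators
open Module
open Pool.Agent.H10.Alb

abbrev Bil : Type := Lam →ₗ[ℤ] Lam →ₗ[ℤ] ℤ

/-- the bilinear form with a given matrix. -/
def toBil : (Fin 4 → Fin 4 → ℤ) →ₗ[ℤ] Bil where
  toFun B := LinearMap.mk₂ ℤ (bil B)
    (by intro a b c; simp only [bil, Pi.add_apply, mul_add, add_mul, Finset.sum_add_distrib])
    (by
      intro r a c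
      simp only [bil, Pi.smul_apply, smul_eq_mul, Finset.mul_sum]
      exact Finset.sum_congr rfl fun i _ => Finset.sum_congr rfl fun j _ => by ring)
    (by intro a b c; simp only [bil, Pi.add_apply, mul_add, Finset.sum_add_distrib])
    (by
      intro r a c
      simp only [bil, Pi.smul_apply, smul_eq_mul, Finset.mul_sum]
      exact Finset.sum_congr rfl fun i _ => Finset.sum_congr rfl fun j _ => by ring)
  map_add' A B := by
    refine LinearMap.ext fun x => LinearMap.ext fun y => ?_
    change bil (A + B) x y = bil A x y + bil B x y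
    simp only [bil, Pi.add_apply, add_mul, Finset.sum_add_distrib]
  map_smul' r A := by
    refine LinearMap.ext fun x => LinearMap.ext fun y => ?_
    change bil (r • A) x y = r * bil A x y
    simp only [bil, Pi.smul_apply, smul_eq_mul, Finset.mul_sum]
    exact Finset.sum_congr rfl fun i _ => Finset.sum_congr rfl fun j _ => by ring

theorem toBil_apply (B : Fin 4 → Fin 4 → ℤ) (x y : Lam) : toBil B x y = bil B x y := rfl

/-- the matrix of a bilinear form. -/
def ofBil (B : Bil) : Fin 4 → Fin 4 → ℤ := fun i j => B (Pi.single i 1) (Pi.single j 1)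

theorem bil_ofBil (B : Bil) (x y : Lam) : bil (ofBil B) x y = B x y := by
  have h : B x y = B (∑ i, x i • (Pi.single i 1 : Lam)) (∑ j, y j • (Pi.single j 1 : Lam)) := by
    rw [← H10.ED.sum_single x, ← H10.ED.sum_single y]
  rw [h]
  simp only [map_sum, LinearMap.sum_apply, map_smul, LinearMap.smul_apply, smul_eq_mul, bil, ofBil]
  rw [Finset.sum_comm]
  refine Finset.sum_congr rfl fun j _ => ?_
  rw [Finset.mul_sum]
  exact Finset.sum_congr rfl fun i _ => by ring

theorem toBil_ofBil (B : Bil) : toBil (ofBil B) = B :=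
  LinearMap.ext fun x => LinearMap.ext fun y => bil_ofBil B x y

theorem ofBil_toBil (B : Fin 4 → Fin 4 → ℤ) : ofBil (toBil B) = B := by
  funext i j
  change bil B (Pi.single i 1) (Pi.single j 1) = B i j
  simp only [bil]
  rw [Finset.sum_eq_single i, Finset.sum_eq_single j]
  · simp
  · intro k _ hk
    simp [hk]
  · simp
  · intro k _ hk
    simp [hk]
  · simp

section

variable {d : ℕ} (M : Monodromy d)

/-- the monodromy of one element. -/
def aut (γ : M.Gam) : H50.ED.Aut where
  toFun := M.rho γ
  map_add' := M.add γ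
  map_smul' := by
    intro c x
    have := map_zsmul (AddMonoidHom.mk' (M.rho γ) (M.add γ)) c x
    simpa using this
  invFun := M.rho γ⁻¹
  left_inv := by
    intro x
    change M.rho γ⁻¹ (M.rho γ x) = x
    rw [← M.mul, inv_mul_cancel, M.one]
  right_inv := by
    intro x
    change M.rho γ (M.rho γ⁻¹ x) = x
    rw [← M.mul, mul_inv_cancel, M.one]

theorem aut_apply (γ : M.Gam) (x : Lam) : aut M γ x = M.rho γ x := rfl

/-- the monodromy. -/
def hom : M.Gam →* H50.ED.Aut where
  toFun := aut M
  map_one' := by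
    refine LinearEquiv.ext fun x => ?_
    exact M.one x
  map_mul' γ δ := by
    refine LinearEquiv.ext fun x => ?_
    exact M.mul γ δ x

theorem hom_apply (γ : M.Gam) (x : Lam) : hom M γ x = M.rho γ x := rfl

theorem node {g : ℕ} {γ : M.Gam} {v : Lam} (h : IsNode d g (M.rho γ) v) :
    H50.ED.IsNode d g (hom M γ) v := by
  obtain ⟨h0, f, h1, h2, h3⟩ := h
  refine ⟨h0, f, h1, h2, fun x => ?_⟩
  funext j
  rw [hom_apply, h3]
  rfl

theorem node' {g : ℕ} {γ : M.Gam} {v : Lam} (h : H50.ED.IsNode d g (hom M γ) v) :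
    IsNode d g (M.rho γ) v := by
  obtain ⟨h0, f, h1, h2, h3⟩ := h
  refine ⟨h0, f, h1, h2, fun x j => ?_⟩
  rw [← hom_apply, h3]
  rfl

theorem cusp {g : ℕ} {γ : M.Gam} (h : IsCusp d g (M.rho γ)) :
    H50.ED.IsCusp d g (hom M γ) := by
  obtain ⟨c, e, h0, h1, h2, h3, h4⟩ := h
  exact ⟨c, e, h0, h1, by funext j; exact h2 j, h3, h4⟩

theorem fixRank_eq {K : Type} (γ : K → M.Gam) :
    finrank ℤ (H50.ED.Fix (Set.range fun k => hom M (γ k))) = fixRank fun k => M.rho (γ k) := by
  rw [fixRank, Set.finrank]
  have : {x : Lam | ∀ k, M.rho (γ k) x = x} =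
      (H50.ED.Fix (Set.range fun k => hom M (γ k)) : Set Lam) := by
    ext x
    constructor
    · rintro h _ ⟨k, rfl⟩
      exact h k
    · intro h k
      exact h _ ⟨k, rfl⟩
  rw [this, Submodule.span_eq]

theorem invRank_eq {K : Type} (γ : K → M.Gam) :
    finrank ℤ (H50.ED.Inv (Set.range fun k => hom M (γ k))) = invRank fun k => M.rho (γ k) := by
  rw [invRank, Set.finrank]
  let N : Submodule ℤ (Fin 4 → Fin 4 → ℤ) :=
    (H50.ED.Inv (Set.range fun k => hom M (γ k))).comap toBil
  have : {B : Fin 4 → Fin 4 → ℤ | (∀ x, bil B x x = 0) ∧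
      ∀ k x y, bil B (M.rho (γ k) x) (M.rho (γ k) y) = bil B x y} = (N : Set _) := by
    ext B
    constructor
    · rintro ⟨h1, h2⟩
      refine ⟨h1, ?_⟩
      rintro _ ⟨k, rfl⟩ x y
      exact h2 k x y
    · rintro ⟨h1, h2⟩
      exact ⟨h1, fun k x y => h2 _ ⟨k, rfl⟩ x y⟩
  rw [this, Submodule.span_eq]
  refine (LinearEquiv.finrank_eq ?_).symm
  exact
    { toFun := fun B => ⟨toBil B.1, B.2⟩
      map_add' := fun A B => Subtype.ext (map_add toBil A.1 B.1)
      map_smul' := fun c A => Subtype.ext (map_smul toBil c A.1)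
      invFun := fun B => ⟨ofBil B.1, by
        change toBil (ofBil B.1) ∈ H50.ED.Inv (Set.range fun k => hom M (γ k))
        rw [toBil_ofBil]
        exact B.2⟩
      left_inv := fun B => Subtype.ext (ofBil_toBil B.1)
      right_inv := fun B => Subtype.ext (toBil_ofBil B.1) }

theorem humbert (h : Humbert d M.rho) : Nonempty (H50.ED.Humbert d (hom M)) :=
  ⟨{ B := toBil h.B
     alt := h.alt
     indep := h.indep
     sign := h.sign }⟩

theorem ext_eq (γ : M.Gam) (x : Fin 4 → ℝ) :
    H50.ED.ext (hom M γ) x = act (mat (M.rho γ)) x := rfl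

theorem isotrivial (h : Isotrivial d M.rho) : Nonempty (H50.ED.Isotrivial d (hom M)) :=
  ⟨{ J := Matrix.mulVecLin (h.J : Matrix (Fin 4) (Fin 4) ℝ)
     sq := fun x => by
       funext i
       exact h.sq x i
     symp := h.symp
     pos := h.pos
     comm := fun γ x => h.comm γ x }⟩

theorem pull {I : Type} [Fintype I] {deg w g : I → ℕ} {k : ℕ} {ord : ℕ → ℕ}
    (h : Pull deg w g k ord) : Nonempty (H50.ED.Pull deg w g k ord) :=
  ⟨{ o := h.o
     total := h.total
     node := h.node
     nu := h.nu
     valence := h.valence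
     cusp := h.cusp }⟩

theorem torsion {p : ℕ} {y : Lam} {c1 c2 : ℝ}
    (h : Torsion d M.w M.g (fun i => M.rho (M.mer i)) p y c1 c2) :
    H50.ED.Torsion d M.w M.g (fun i => hom M (M.mer i)) p y
      (fun t => 3 - c1 * t + c2 * t ^ 2 - c1 * t ^ 3 + 3 * t ^ 4) := by
  cases h with
  | surface i hi v hv n hn => exact .surface i hi v (node M hv) n hn
  | points r a b ha hb hl => exact .points r a b ha hb hl

end

theorem sum_lt {R : Type} [AddCommMonoid R] (f : Fin 4 → Fin 4 → R) :
    ∑ i, ∑ j ∈ Finset.univ.filter (i < ·), f i j =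
      f 0 1 + f 0 2 + f 0 3 + (f 1 2 + f 1 3) + f 2 3 := by
  have h0 : (Finset.univ.filter ((0 : Fin 4) < ·)) = {1, 2, 3} := by decide
  have h1 : (Finset.univ.filter ((1 : Fin 4) < ·)) = {2, 3} := by decide
  have h2 : (Finset.univ.filter ((2 : Fin 4) < ·)) = {3} := by decide
  have h3 : (Finset.univ.filter ((3 : Fin 4) < ·)) = ∅ := by decide
  rw [Fin.sum_univ_four, h0, h1, h2, h3, Finset.sum_insert (by decide), Finset.sum_insert (by decide),
    Finset.sum_singleton, Finset.sum_insert (by decide), Finset.sum_singleton,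
    Finset.sum_singleton, Finset.sum_empty, add_zero]
  simp only [add_assoc]

/-- the nine numbers of a block of type `3A_1 + A_3`. -/
def nines (a : Fin 3 → ℤ) (e : Fin 4 → ℤ) : Fin 9 → ℤ :=
  ![a 0, a 1, a 2, e 0 - e 1, e 1 - e 2, e 2 - e 3, e 0 - e 2, e 1 - e 3, e 0 - e 3]

theorem sum_nines {R : Type} [AddCommMonoid R] (a : Fin 3 → ℤ) (e : Fin 4 → ℤ) (f : ℤ → R) :
    ∑ j, f (nines a e j) = ∑ j, f (a j) +
      ∑ i, ∑ j ∈ Finset.univ.filter (i < ·), f (e i - e j) := by
  rw [sum_lt (fun i j => f (e i - e j)), Fin.sum_univ_three]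
  have h : ∑ j, f (nines a e j) = f (nines a e 0) + f (nines a e 1) + f (nines a e 2) +
      f (nines a e 3) + f (nines a e 4) + f (nines a e 5) + f (nines a e 6) + f (nines a e 7) +
      f (nines a e 8) := by
    rw [Fin.sum_univ_castSucc, Fin.sum_univ_eight]
    rfl
  rw [h]
  change f (a 0) + f (a 1) + f (a 2) + f (e 0 - e 1) + f (e 1 - e 2) + f (e 2 - e 3) +
    f (e 0 - e 2) + f (e 1 - e 3) + f (e 0 - e 3) = _
  simp only [add_assoc, add_left_comm, add_comm]

/-- the forms. -/
def par {d : ℕ} (P : Paramodular d) : H50.ED.Paramodular d where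
  Form := P.Form
  wt := P.wt
  ord := P.ord
  eight := P.eight
  nine := by
    intro a e ha he hsum hpos
    have hne : ∀ i j, i ≠ j → e i - e j ≠ 0 := fun i j hij h => hij (he (sub_eq_zero.1 h))
    refine P.nine (nines a e) ?_ ?_ ?_ ?_ ?_ ?_
    · simp [nines]
    · simp [nines]
    · simp [nines]
    · intro j
      fin_cases j
      · exact ha 0
      · exact ha 1
      · exact ha 2
      · exact hne 0 1 (by decide)
      · exact hne 1 2 (by decide)
      · exact hne 2 3 (by decide)
      · exact hne 0 2 (by decide)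
      · exact hne 1 3 (by decide)
      · exact hne 0 3 (by decide)
    · rw [← hsum]
      exact sum_nines a e (fun z => z ^ 2)
    · intro x
      have h1 := hpos x
      have h2 := sum_nines a e (fun z => (Int.fract ((z : ℚ) * x) - 1 / 2) ^ 2)
      rw [H50.ED.nineOrd] at h1
      rw [blockOrd, h2]
      have h3 : ((-3 : ℤ) : ℚ) / 24 = -(1 / 8) := by norm_num
      rw [h3]
      exact h1

/-- the facts on one fibration. -/
noncomputable def data {d b2 b3 : ℕ} {H : Type} [AddCommGroup H] {q : H → H → ℤ}
    {C : Chern b2 b3 q} {int : H → H → ℚ} {Par : Paramodular d} (hd : 0 < d)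
    (D : Data d b2 C int Par) : H50.ED.Data d b2 C int (par Par) := by
  classical
  letI := D.pts.finQ
  exact
    { d_pos := hd
      I := D.mon.I
      dec := Classical.decEq _
      deg := D.mon.deg
      deg_pos := D.mon.deg_pos
      g := D.mon.g
      g_pos := D.mon.g_pos
      g_dvd := D.mon.g_dvd
      w := D.mon.w
      Gam := D.mon.Gam
      mer := D.mon.mer
      rho := hom D.mon
      symp := D.mon.symp
      loc := fun i => (D.mon.loc i).imp
        (fun h => ⟨h.1, h.2.imp fun v hv => node D.mon hv⟩) fun h => ⟨h.1, cusp D.mon h.2⟩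
      gen := D.mon.gen
      inv := fun B h1 h2 => by
        obtain ⟨m, n, hm, h⟩ := D.mon.inv (ofBil B) (fun x => by rw [bil_ofBil]; exact h1 x)
          (fun γ x y => by rw [bil_ofBil, bil_ofBil]; exact h2 γ x y)
        exact ⟨m, n, hm, fun x y => by rw [← bil_ofBil]; exact h x y⟩
      hIC := D.coh.hIC
      decomposition := D.coh.decomposition
      hline := D.coh.hline
      lefschetz := D.coh.lefschetz
      euler := D.coh.euler
      L := D.coh.L
      M := D.coh.Th
      LL := D.coh.LL
      LM := D.coh.LTh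
      c2 := D.coh.c2
      variation := by
        rcases D.variation with ⟨⟨h⟩⟩ | h
        · exact Or.inl (isotrivial D.mon h)
        · refine Or.inr fun F => ?_
          rcases h F with ⟨⟨h1⟩⟩ | ⟨⟨h1⟩⟩
          · exact Or.inl (humbert D.mon h1)
          · exact Or.inr (pull h1)
      chi1 := D.coh.chi1
      chi2 := D.coh.chi2
      hodge := D.coh.hodge
      gauss_bonnet := D.coh.gauss_bonnet
      torsion := fun p hp y hy h => torsion D.mon (D.coh.torsion p hp y hy fun γ j => h γ j)
      Q := D.pts.Q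
      eul := D.pts.eul
      eul_sum := D.pts.eul_sum
      mult := D.pts.mult
      bezout := D.pts.bezout
      polar := D.pts.polar
      num := D.pts.num
      idx := D.pts.idx
      path := D.pts.path
      idx_card := fun b i => by
        rw [← D.pts.idx_card b i, Nat.card_eq_fintype_card, Fintype.card_subtype]
      lmer := fun b => Set.range fun k =>
        hom D.mon (D.pts.path b k * D.mon.mer (D.pts.idx b k) * (D.pts.path b k)⁻¹)
      lmer_eq := fun b => rfl
      L1 := D.pts.L1
      eul_eq := fun b => by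
        rw [fixRank_eq, invRank_eq]
        have h : D.pts.lmer b = fun k =>
            D.mon.rho (D.pts.path b k * D.mon.mer (D.pts.idx b k) * (D.pts.path b k)⁻¹) :=
          funext fun k => D.pts.lmer_eq b k
        rw [← h]
        exact D.pts.eul_eq b
      tor := fun b => by
        rw [fixRank_eq]
        have h : D.pts.lmer b = fun k =>
            D.mon.rho (D.pts.path b k * D.mon.mer (D.pts.idx b k) * (D.pts.path b k)⁻¹) :=
          funext fun k => D.pts.lmer_eq b k
        rw [← h]
        exact D.pts.tor b }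

/-- the world. -/
noncomputable def world (W : World) : H50.ED.World where
  toFourfolds := W.toFourfolds
  par := fun d hd => par (W.par d hd)
  pos := W.pos
  data := fun x π => data (W.pos x π) (W.data x π)

/-- THE MAIN THEOREM. -/
theorem main (W : World) (x : W.X) (π : W.Fibration x) :
    W.b2 x = 23 ∧ W.DefEq x (W.alb x π) :=
  H50.ED.main (world W) x π

end Pool.Agent.H10.EDP
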