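import Pool.Agent.H10.Alb.Defs

/-!
# Fourfolds: the published facts on the relative compactified Albanese that are used

NOTATION. `f : Y → P^2` is the relative compactified Albanese of a Lagrangian fibration with
integral fibres of an irreducible hyper-Kaehler variety of dimension four: a Lagrangian fibration
with integral fibres and a section; `F` is a smooth fibre, with the polarisation `theta` of type
`(1, d)`, and `Lam = H_1(F, Z)` with the form `E` of `theta`; `V` is the local system of the
`H_1(F, Q)`. `D` is the union of the irreducible plane curves `D_i` of degree `deg i` outside of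
which `f` is smooth (some finite set of points apart), `Gam` the fundamental group of `P^2 - D`,
`rho` the monodromy on `Lam`, `mer i` a meridian of `D_i` and `T_i = rho (mer i)`.
The group scheme `P → P^2` of the fibration acts on `Y`; it has connected fibres, because the fibres
of `f` are integral, and the smooth locus of the fibre over `b` is a torsor under `P_b` (NGO).
-/

namespace Pool.Agent.H10.EDP

open scoped BigOperators
open Pool.Agent.H10.Alb

/-- the lattice `H_1(F, Z)`. -/
abbrev Lam : Type := Fin 4 → ℤ

/-- the alternating form of type `(1, d)`. -/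
def E (d : ℕ) (a b : Lam) : ℤ := a 0 * b 1 - a 1 * b 0 + d * (a 2 * b 3 - a 3 * b 2)

/-- `y` is in `p Lam`. -/
def Dv (p : ℕ) (y : Lam) : Prop := ∀ j, (p : ℤ) ∣ y j

/-- TYPE `I_1`: `T x = x + (E(x, v)/g) v`, where `v` is primitive and `E(Lam, v) = g Z`. -/
def IsNode (d g : ℕ) (T : Lam → Lam) (v : Lam) : Prop :=
  (∀ p : ℕ, p.Prime → ¬ Dv p v) ∧
    ∃ h : Lam → ℤ, (∀ x, E d x v = g * h x) ∧ (∃ x, h x = 1) ∧ ∀ x j, T x j = x j + h x * v j

/-- TYPE `II`: `Lam` is the orthogonal sum of a plane with basis `c, e` on which the form is `g`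
times a unimodular one, where `T` has order 6, and a plane on which `T` is the identity. -/
def IsCusp (d g : ℕ) (T : Lam → Lam) : Prop :=
  ∃ c e : Lam, E d c e = g ∧ T c = e ∧ (∀ j, T e j = e j - c j) ∧
    (∀ x, E d x c = 0 → E d x e = 0 → T x = x) ∧ ∀ x, (g : ℤ) ∣ E d x c ∧ (g : ℤ) ∣ E d x e

/-- the bilinear form on `Lam` with the matrix `B`. -/
def bil (B : Fin 4 → Fin 4 → ℤ) (x y : Lam) : ℤ := ∑ i, ∑ j, B i j * x i * y j

/-- the rank of the group of the vectors fixed by all `T k`. -/
noncomputable def fixRank {K : Type} (T : K → Lam → Lam) : ℕ :=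
  Set.finrank ℤ {x : Lam | ∀ k, T k x = x}

/-- the rank of the group of the alternating forms on `Lam` invariant under all `T k`. -/
noncomputable def invRank {K : Type} (T : K → Lam → Lam) : ℕ :=
  Set.finrank ℤ {B : Fin 4 → Fin 4 → ℤ |
    (∀ x, bil B x x = 0) ∧ ∀ k x y, bil B (T k x) (T k y) = bil B x y}

/-- THE ORDER of the theta block `eta^fu prod_j theta_(a_j)` at `x`. -/
def blockOrd {m : ℕ} (fu : ℤ) (a : Fin m → ℤ) (x : ℚ) : ℚ :=
  (fu : ℚ) / 24 + (1 / 2) * ∑ j, (Int.fract ((a j : ℚ) * x) - 1 / 2) ^ 2

/-- PARAMODULAR FORMS OF LEVEL `d`: the non zero modular forms with trivial character for the group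
`Sp(Lam, E)`, whose zeros in the Siegel space are on Humbert surfaces only. `wt` is the weight;
`ord F g` the order of `F` along the boundary divisor of a toroidal compactification given by a
primitive vector `v` with `E(Lam, v) = g Z` (for `g` dividing `d`; the generator of the centre of
the unipotent radical is the transvection of `IsNode`).
GRITSENKO (Arithmetical lifting and its applications): a Jacobi cusp form of index `d` has a lift,
which is a cusp form of level `d` and of the same weight, and not zero. GRITSENKO, SKORUPPA, ZAGIER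
(Theta blocks): a theta block with positive order at all rational `x` is a Jacobi cusp form (the
order is continuous and piecewise quadratic with rational coefficients).
GRITSENKO, POOR, YUEN (Borcherds products everywhere) and DITTMANN, WANG (Theta blocks related to
root systems): for the theta blocks of `q`-order one of the types `8A_1` (and of its sections with
`m < 8` factors) and `3A_1 + A_3` the lift is a Borcherds product. -/
structure Paramodular (d : ℕ) where
  Form : Type
  wt : Form → ℕ
  ord : Form → ℕ → ℕ
  /-- `eta^(24-3m) theta_(a_1) .. theta_(a_m)`, weight `12 - m`. -/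
  eight : ∀ (m : ℕ) (a : Fin m → ℤ), m ≤ 8 → (∀ j, a j ≠ 0) → ∑ j, a j ^ 2 = 2 * d →
    (∀ x, 0 < blockOrd (24 - 3 * m) a x) → ∃ F, wt F = 12 - m ∧ ∀ g, g ∣ d → 1 ≤ ord F g
  /-- `eta^(-3) theta_(b_0) .. theta_(b_8)`, weight 3; `b_3, b_4, b_5` are the values of the simple
  roots of `A_3`, and `b_6, b_7, b_8` the ones of the other positive roots. -/
  nine : ∀ b : Fin 9 → ℤ, b 6 = b 3 + b 4 → b 7 = b 4 + b 5 → b 8 = b 3 + b 4 + b 5 →
    (∀ j, b j ≠ 0) → ∑ j, b j ^ 2 = 2 * d → (∀ x, 0 < blockOrd (-3) b x) →
    ∃ F, wt F = 3 ∧ ∀ g, g ∣ d → 1 ≤ ord F g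

/-- THE PULL BACK to the plane of a form of weight `k` with orders `ord`, if it is not zero: a
section of `O(3k)`, because the Hodge line bundle, extended as `f_* omega_(Y/P^2)`, the upper
canonical extension (KOLLAR), is `O(3)`. -/
structure Pull {I : Type} [Fintype I] (deg w g : I → ℕ) (k : ℕ) (ord : ℕ → ℕ) where
  /-- the order along `D_i`. -/
  o : I → ℕ
  total : ∑ i, deg i * o i ≤ 3 * k
  /-- type `I_1`: the period map extends to the toroidal compactification (MUMFORD, NAMIKAWA) and is
  transversal to the boundary divisor of `v`. -/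
  node : ∀ i, w i = 1 → ord (g i) ≤ o i
  /-- type `II`: the order of the form along the locus of products for the decomposition of
  `IsCusp`. The leading coefficient is a modular form of weight `k + nu` for `SL_2(Z)` in the
  variable of the first plane, of order at least `ord g` at infinity. -/
  nu : I → ℕ
  valence : ∀ i, w i = 2 → 12 * ord (g i) ≤ k + nu i
  /-- on the cover `u^6 = s` the family extends, with a product as limit. In the frame of the upper
  canonical extension, with exponents `0, 1/6`, the form is `u^k` times a power series in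
  `z = tau_12`, which has order at least one in `u`, starting with `z^nu` (KODAIRA). -/
  cusp : ∀ i, w i = 2 → k + nu i ≤ 6 * o i

/-- THE IMAGE OF THE PERIOD MAP IS IN A HUMBERT SURFACE, and the period map is generically
immersive. Then the Neron-Severi group of the general fibre has rank two (the period points with a
larger one are on curves); it is preserved by the monodromy, as a lattice with the intersection
form, together with `theta`, and `B` generates the orthogonal complement of `theta`. -/
structure Humbert {Gam : Type} (d : ℕ) (rho : Gam → Lam → Lam) where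
  B : Fin 4 → Fin 4 → ℤ
  alt : ∀ x, bil B x x = 0
  indep : ¬ ∃ m n : ℤ, m ≠ 0 ∧ ∀ x y, m * bil B x y = n * E d x y
  sign : ∀ γ, (∀ x y, bil B (rho γ x) (rho γ y) = bil B x y) ∨
    ∀ x y, bil B (rho γ x) (rho γ y) = - bil B x y

/-- the form on `Lam (x) R`, the action of a real matrix, and the matrix of an endomorphism of
`Lam`. -/
def ER (d : ℕ) (a b : Fin 4 → ℝ) : ℝ := a 0 * b 1 - a 1 * b 0 + d * (a 2 * b 3 - a 3 * b 2)

def act (A : Fin 4 → Fin 4 → ℝ) (x : Fin 4 → ℝ) : Fin 4 → ℝ := fun i => ∑ j, A i j * x j

def mat (T : Lam → Lam) : Fin 4 → Fin 4 → ℝ := fun i j => (T (Pi.single j 1) i : ℝ)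

/-- THE PERIOD MAP IS CONSTANT: the complex structure of the fibres (or its negative) is a
complex structure `J` of `Lam (x) R` which commutes with the monodromy. -/
structure Isotrivial {Gam : Type} (d : ℕ) (rho : Gam → Lam → Lam) where
  J : Fin 4 → Fin 4 → ℝ
  sq : ∀ x i, act J (act J x) i = - x i
  symp : ∀ x y, ER d (act J x) (act J y) = ER d x y
  pos : ∀ x, x ≠ 0 → 0 < ER d x (act J x)
  comm : ∀ γ x, act J (act (mat (rho γ)) x) = act (mat (rho γ)) (act J x)

/-- the polynomial `chi(t) = sum_q (-t)^q chi(Omega^q)` of `Y`. -/
def chiPoly (c1 c2 t : ℝ) : ℝ := 3 - c1 * t + c2 * t ^ 2 - c1 * t ^ 3 + 3 * t ^ 4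

/-- `t + (1 - t)^2 / |1 - z^a|^2` with `z = exp(2 pi i/p)`. -/
noncomputable def term (p a : ℕ) (t : ℝ) : ℝ :=
  t + (1 - t) ^ 2 / (2 - 2 * Real.cos (2 * Real.pi * a / p))

/-- A TORSION SECTION of prime order `p`, given by an element of `(1/p) Lam / Lam` invariant under
the monodromy, with representative `y/p`. The translation by the section is an automorphism `s` of
`Y` of order `p`: it is one outside of finitely many fibres and it preserves, being of finite order
and trivial on the graded pieces of the Leray filtration, the class of an ample divisor. It acts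
trivially on the rational cohomology of `Y`, because the sheaves of the decomposition theorem have
full support, the fibres being integral (NGO), and it acts trivially on the cohomology of the smooth
fibres. So it preserves the symplectic form, and the components of its fixed locus are points and
surfaces. -/
inductive Torsion {I : Type} (d : ℕ) (w g : I → ℕ) (T : I → Lam → Lam) (p : ℕ) (y : Lam)
    (c1 c2 : ℝ) : Prop
  /-- There is a fixed surface. It is not a fibre: `s` acts freely on the smooth locus of the fibres,
  as the kernel of `p` on `P` is etale and separated, so that `s` does not meet the zero section. So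
  the surface dominates a curve, which is one of the `D_i`: the section passes through the affine
  part of `P_b` for a general point `b` of this curve. In the case of `I_1` the affine part is the
  multiplicative group with `H_1 = Z v`, in the case of `II` it is an additive group, without
  torsion. -/
  | surface (i : I) (hi : w i = 1) (v : Lam) (hv : IsNode d (g i) (T i) v) (n : ℤ)
      (hn : ∀ j, (p : ℤ) ∣ y j - n * v j)
  /-- There are `r` fixed points, with the eigenvalues `z^a, z^(-a), z^b, z^(-b)`,
  `z = exp(2 pi i/p)`. HOLOMORPHIC LEFSCHETZ FORMULA (ATIYAH, BOTT). -/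
  | points (r : ℕ) (a b : Fin r → ℕ) (ha : ∀ q, 0 < a q ∧ a q < p) (hb : ∀ q, 0 < b q ∧ b q < p)
      (lefschetz : ∀ t : ℝ, chiPoly c1 c2 t = ∑ q, term p (a q) t * term p (b q) t)

/-- THE DISCRIMINANT AND THE MONODROMY. -/
structure Monodromy (d : ℕ) where
  I : Type
  [fin : Fintype I]
  deg : I → ℕ
  deg_pos : ∀ i, 0 < deg i
  /-- the divisor of `E(Lam, v)` resp. the `g` of `IsCusp`. -/
  g : I → ℕ
  g_pos : ∀ i, 0 < g i
  g_dvd : ∀ i, g i ∣ d
  /-- the rank of `T_i - 1`: `1` for type `I_1`, `2` for type `II`. -/
  w : I → ℕ
  Gam : Type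
  [grp : Group Gam]
  mer : I → Gam
  rho : Gam → Lam → Lam
  one : ∀ x, rho 1 x = x
  mul : ∀ γ δ x, rho (γ * δ) x = rho γ (rho δ x)
  add : ∀ γ x y, rho γ (x + y) = rho γ x + rho γ y
  symp : ∀ γ a b, E d (rho γ a) (rho γ b) = E d a b
  /-- HWANG, OGUISO (characteristic cycles): the fibre over a general point of `D_i` is, up to
  translation, of the type of Kodaira's `I_1` or `II` times an elliptic curve, since it is integral:
  the other types have several components or are multiple. -/
  loc : ∀ i, (w i = 1 ∧ ∃ v, IsNode d (g i) (rho (mer i)) v) ∨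
    (w i = 2 ∧ IsCusp d (g i) (rho (mer i)))
  /-- the plane is simply connected. -/
  gen : ∀ N : Subgroup Gam, N.Normal → (∀ i, mer i ∈ N) → N = ⊤
  /-- The monodromy invariants of `H^2(F, Q)` are the image of `H^2(Y, Q)` (DELIGNE), which has rank
  one (VOISIN, MATSUSHITA); so they are the multiples of `theta`. -/
  inv : ∀ B, (∀ x, bil B x x = 0) → (∀ γ x y, bil B (rho γ x) (rho γ y) = bil B x y) →
    ∃ m n : ℤ, m ≠ 0 ∧ ∀ x y, m * bil B x y = n * E d x y

attribute [instance] Monodromy.fin Monodromy.grp

/-- THE POINTS `b` for which `P_b` is affine: a finite set `Q` (NGO, HWANG-OGUISO). The fibres over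
the other points have Euler number zero, as the stabilisers of points in `P_b` are affine (NGO).
`c4` is the Euler number of `Y`. -/
structure Points {d : ℕ} (M : Monodromy d) (c4 : ℚ) where
  Q : Type
  [finQ : Fintype Q]
  eul : Q → ℤ
  eul_sum : c4 = ∑ b, (eul b : ℚ)
  /-- the multiplicity of `D_i` at `b`; BEZOUT for `D_i` and `D_j`, and for `D_i` and a general
  polar. -/
  mult : Q → M.I → ℕ
  bezout : ∀ i j, i ≠ j → ∑ b, mult b i * mult b j ≤ M.deg i * M.deg j
  polar : ∀ i, ∑ b, mult b i * (mult b i - 1) ≤ M.deg i * (M.deg i - 1)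
  /-- The fundamental group of the complement of `D` in a small ball around `b` is generated by the
  loops around the points of `D` on a general line near `b` (ZARISKI, VAN KAMPEN, HAMM, LE): there
  are `mult b i` of them on `D_i`. The loop with number `k` is around a point of the component
  `idx b k` and it is conjugate by `path b k` to the meridian of this component; `lmer b k` is its
  monodromy. -/
  num : Q → ℕ
  idx : ∀ b, Fin (num b) → M.I
  path : ∀ b, Fin (num b) → M.Gam
  idx_card : ∀ b i, Nat.card {k // idx b k = i} = mult b i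
  lmer : ∀ b, Fin (num b) → Lam → Lam
  lmer_eq : ∀ b k, lmer b k = M.rho (path b k * M.mer (idx b k) * (path b k)⁻¹)
  /-- DECOMPOSITION THEOREM (BEILINSON, BERNSTEIN, DELIGNE, GABBER) with full supports (NGO): the
  cohomology of the fibre `F_b` is the sum of the stalks of `IC(Lambda^i V)`, which have degrees 0
  (the local invariants) and 1. As `F_b` is irreducible, the term of degree one of `IC(V)` is zero.
  `L1` is the term of degree one of `IC(Lambda^2 V)`. So the Betti numbers of `F_b` are
  `1, H0, L0, L1 + H0, 1`. -/
  L1 : Q → ℕ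
  eul_eq : ∀ b, eul b = 2 - 2 * (fixRank (lmer b) : ℤ) + invRank (lmer b) - L1 b
  /-- `t` is the dimension of the maximal torus of the affine group `P_b`. The third Betti number of
  `F_b` is at most `t`, because `H^3(F_b)` is a quotient of the third cohomology with compact
  support of `P_b`, the dual of `H_1(P_b)`. If `t = 2` then `P_b` is a torus with a dense orbit in
  `F_b`, there are finitely many fixed points, and their number is the Euler number
  (BIALYNICKI-BIRULA). -/
  tor : ∀ b, ∃ t : ℕ, t ≤ 2 ∧ fixRank (lmer b) + L1 b ≤ t ∧ (t = 2 → ∃ n : ℕ, eul b = n)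

/-- THE COHOMOLOGY of `Y`. -/
structure Cohomology {d : ℕ} (M : Monodromy d) (b2 : ℕ) {b3 : ℕ} {H : Type} [AddCommGroup H]
    {q : H → H → ℤ} (C : Chern b2 b3 q) (int : H → H → ℚ) where
  /-- `hIC` is the dimension of `H^1(P^2, IC(V))`. DECOMPOSITION THEOREM, the fibres being integral:
  `b_2(Y)` is the sum of `b_2(P^2)`, `hIC` and the rank one of the invariants of `H^2(F, Q)`. -/
  hIC : ℕ
  decomposition : b2 = 1 + hIC + 1
  /-- the dimension of `H^1` of a general line with coefficients in `j_* V`; the restriction is
  injective (LEFSCHETZ; GORESKY, MACPHERSON). EULER's formula: `H^0` and `H^2` of the line vanish,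
  as `V` has no invariants, because `H^1(Y) = 0` (DELIGNE; ZARISKI's theorem for the line). -/
  hline : ℕ
  lefschetz : hIC ≤ hline
  euler : (4 : ℤ) * (2 - ∑ i, (M.deg i : ℤ)) + ∑ i, (M.deg i : ℤ) * (4 - (M.w i : ℤ)) = - hline
  /-- `L` is the class of the pull back of a line, `Th` the one of the totally symmetric bundle, as
  in `Fourfolds`. SAWON (On the discriminant locus of a Lagrangian fibration): `c_2(Y) L` is the sum
  over the points `b` of a line and of `D_i` of the singular locus of the fibre, an elliptic curve,
  with multiplicity `w i`. The polarisation that `theta` induces on this curve has degree `d / g i`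
  (its `H_1` is the orthogonal complement of `v` modulo `v`, resp. the orthogonal complement of
  `c, e`), and `Th` is twice this polarisation. -/
  L : H
  Th : H
  LL : q L L = 0
  LTh : int L Th = 8 * (d : ℚ)
  c2 : C.cc * (q L Th : ℚ) = ∑ i, (M.w i : ℚ) * M.deg i * (2 * ((d : ℚ) / M.g i))
  /-- the Euler characteristics of the sheaves of one-forms and two-forms: `h^(1,1) = h^(3,1)` is
  `b_2 - 2`, and `h^(2,1) = b_3/2`; GAUSS-BONNET. -/
  chi1 : ℝ
  chi2 : ℝ
  hodge : chi1 = 4 - 2 * (b2 : ℝ) + (b3 : ℝ) / 2
  gauss_bonnet : (C.c4 : ℝ) = 6 - 2 * chi1 + chi2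
  torsion : ∀ p : ℕ, p.Prime → ∀ y : Lam, ¬ Dv p y → (∀ γ j, (p : ℤ) ∣ M.rho γ y j - y j) →
    Torsion d M.w M.g (fun i => M.rho (M.mer i)) p y chi1 chi2

/-- THE FACTS ON ONE FIBRATION `f : Y → P^2`. -/
structure Data (d b2 : ℕ) {b3 : ℕ} {H : Type} [AddCommGroup H] {q : H → H → ℤ}
    (C : Chern b2 b3 q) (int : H → H → ℚ) (Par : Paramodular d) where
  mon : Monodromy d
  coh : Cohomology mon b2 C int
  pts : Points mon C.c4
  /-- The period map is constant or generically immersive (VAN GEEMEN, VOISIN; BAKKER); in the
  second case a form of level `d` vanishes on its image only if this is in a Humbert surface. -/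
  variation : Nonempty (Isotrivial d mon.rho) ∨ ∀ F : Par.Form, Nonempty (Humbert d mon.rho) ∨
    Nonempty (Pull mon.deg mon.w mon.g (Par.wt F) (Par.ord F))

/-- THE IRREDUCIBLE HYPER-KAEHLER VARIETIES OF DIMENSION FOUR, with the facts of `Fourfolds`
and of `Data`. -/
structure World extends Fourfolds where
  par : ∀ d : ℕ, 0 < d → Paramodular d
  pos : ∀ x (π : Fibration x), 0 < d x π
  data : ∀ x (π : Fibration x), Data (d x π) (b2 (alb x π)) (chern (alb x π))
    (int (alb x π)) (par (d x π) (pos x π))

end Pool.Agent.H10.EDP
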